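import Pool.Agent.H59.PG.Stmts

/-!
# Row EMB: embeddings keep the winner
-/

set_option autoImplicit false

namespace Pool.PG.EMB

open Filter

/-- At most one player wins a sequence of priorities. -/
theorem won_uniq {q : ℕ → ℕ} {i j : Bool}
    (h1 : ∃ p : ℕ, (∃ᶠ n in atTop, q n = p) ∧ (∀ᶠ n in atTop, p ≤ q n) ∧ (Even p ↔ i = true))
    (h2 : ∃ p : ℕ, (∃ᶠ n in atTop, q n = p) ∧ (∀ᶠ n in atTop, p ≤ q n) ∧ (Even p ↔ j = true)) :
    i = j := by
  obtain ⟨p, hp1, hp2, hp3⟩ := h1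
  obtain ⟨r, hr1, hr2, hr3⟩ := h2
  have h12 : p ≤ r := by
    obtain ⟨n, h, h'⟩ := (hr1.and_eventually hp2).exists
    omega
  have h21 : r ≤ p := by
    obtain ⟨n, h, h'⟩ := (hp1.and_eventually hr2).exists
    omega
  have h : p = r := le_antisymm h12 h21
  subst h
  have h4 : i = true ↔ j = true := hp3.symm.trans hr3
  cases i <;> cases j <;> simp_all

end Pool.PG.EMB

namespace Pool.PG

open Filter

theorem emb_row (hSOL : SOLStmt) : EMBStmt := by
  intro g h φ hg hh hφ u hu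
  by_contra hne
  obtain ⟨⟨σ, hσ⟩, -⟩ := hSOL g hg
  obtain ⟨⟨τ, hτ⟩, -⟩ := hSOL h hh
  obtain ⟨i, hi⟩ : ∃ i, win g u = i := ⟨_, rfl⟩
  have hni : win h (φ u) = !i := by
    rw [hi] at hne
    cases hw : win h (φ u) <;> cases i <;> simp_all
  have key : ∀ v, (v < g.length ∧ win g v = i ∧ win h (φ v) = !i) →
      ∃ w, (w < g.length ∧ win g w = i ∧ win h (φ w) = !i) ∧ w ∈ suc g v ∧
        (own g v = i → w = σ v) ∧ (own g v ≠ i → φ w = τ (φ v)) := by
    rintro v ⟨hv, hgv, hhv⟩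
    obtain ⟨hφv, hown, -, hsuc⟩ := hφ v hv
    by_cases ho : own g v = i
    · refine ⟨σ v, ⟨(hg v hv).2 _ (hσ.mem v hv), ?_, ?_⟩, hσ.mem v hv, fun _ => rfl,
        fun hc => absurd ho hc⟩
      · rw [hσ.stay v hv (by rw [ho, hgv])]; exact hgv
      · rw [← hhv]
        refine hτ.trap (φ v) hφv ?_ _ ?_
        · rw [hown, ho, hhv]; cases i <;> simp
        · rw [hsuc]; exact List.mem_map_of_mem (hσ.mem v hv)
    · have ho' : own h (φ v) = win h (φ v) := by
        rw [hown, hhv]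
        cases hw : own g v <;> cases i <;> simp_all
      have hm := hτ.mem (φ v) hφv
      rw [hsuc, List.mem_map] at hm
      obtain ⟨w, hw, hwe⟩ := hm
      refine ⟨w, ⟨(hg v hv).2 w hw, ?_, ?_⟩, hw, fun hc => absurd hc ho, fun _ => hwe⟩
      · rw [← hgv]
        exact hσ.trap v hv (by rw [hgv]; exact ho) w hw
      · rw [hwe, hτ.stay (φ v) hφv ho']; exact hhv
  classical
  choose! f hf using key
  let y : ℕ → ℕ := fun n => f^[n] u
  have hy0 : y 0 = u := rfl
  have hyS : ∀ n, y (n + 1) = f (y n) := fun n => Function.iterate_succ_apply' f n u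
  have hP : ∀ n, y n < g.length ∧ win g (y n) = i ∧ win h (φ (y n)) = !i := by
    intro n
    induction n with
    | zero => exact ⟨hu, hi, hni⟩
    | succ n ih => rw [hyS]; exact (hf (y n) ih).1
  have w1 : WonBy g (win g u) y := by
    refine hσ.won u hu y ⟨hy0, fun n => ?_⟩ fun n hn => ?_
    · rw [hyS]; exact (hf (y n) (hP n)).2.1
    · rw [hyS]; exact (hf (y n) (hP n)).2.2.1 (by rw [hn, hi])
  have w2 : WonBy h (win h (φ u)) (fun n => φ (y n)) := by
    refine hτ.won (φ u) (hφ u hu).1 (fun n => φ (y n)) ⟨rfl, fun n => ?_⟩ fun n hn => ?_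
    · show φ (y (n + 1)) ∈ suc h (φ (y n))
      rw [(hφ (y n) (hP n).1).2.2.2, hyS]
      exact List.mem_map_of_mem (hf (y n) (hP n)).2.1
    · show φ (y (n + 1)) = τ (φ (y n))
      rw [hyS]
      refine (hf (y n) (hP n)).2.2.2 ?_
      have h1 : own h (φ (y n)) = own g (y n) := (hφ (y n) (hP n).1).2.1
      have h2 : own g (y n) = !i := by rw [← h1, hn, hni]
      rw [h2]; cases i <;> simp
  have w2' : WonBy g (win h (φ u)) y := by
    obtain ⟨p, hp1, hp2, hp3⟩ := w2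
    have he : ∀ n, pri h (φ (y n)) = pri g (y n) := fun n => (hφ (y n) (hP n).1).2.2.1
    simp only [he] at hp1 hp2
    exact ⟨p, hp1, hp2, hp3⟩
  exact hne (EMB.won_uniq w2' w1)

end Pool.PG
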